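import Mathlib
import Pool.Agent.Lib.helper4.MProd

set_option autoImplicit false

open Cardinal Set Pool.Agent.Lib.helper4.MProd

namespace Pool.Agent.Results.MP_705fed_lc.NotRep

/-- `B` is `m`-representable: `B ≅ F/Δ` for an `m`-field of sets `F` and an `m`-ideal `Δ` of `F`,
expressed through a Boolean homomorphism `π` from `F` onto `B` whose kernel is `Δ`. -/
def IsMRep (m : Cardinal.{0}) (B : Type) [BooleanAlgebra B] : Prop :=
  ∃ (Ω : Type) (F Δ : Set (Set Ω)) (π : Set Ω → B),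
    (∀ E ∈ F, Eᶜ ∈ F) ∧ (∀ S ⊆ F, #S ≤ m → ⋃₀ S ∈ F) ∧
    Δ ⊆ F ∧ (∀ E ∈ Δ, ∀ E' ∈ F, E' ⊆ E → E' ∈ Δ) ∧ (∀ S ⊆ Δ, #S ≤ m → ⋃₀ S ∈ Δ) ∧
    (∀ E ∈ F, π Eᶜ = (π E)ᶜ) ∧ (∀ E ∈ F, ∀ E' ∈ F, π (E ∪ E') = π E ⊔ π E') ∧
    (∀ b, ∃ E ∈ F, π E = b) ∧ ∀ E ∈ F, π E = ⊥ ↔ E ∈ Δ

/-- For every infinite `n` there are `m ≥ n` and a family of non-degenerate `m`-representable
Boolean `m`-algebras whose minimal `(m,n)`-product is not `m`-representable. -/
theorem result (n : Cardinal.{0}) (hn : ℵ₀ ≤ n) : ∃ m : Cardinal.{0}, n ≤ m ∧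
    ∃ (T : Type) (A : T → Type) (_ : ∀ t, BooleanAlgebra (A t)),
    (∀ t, Nontrivial (A t) ∧ IsMAlg m (A t) ∧ IsMRep m (A t)) ∧
      (∃ (M : Type) (_ : BooleanAlgebra M) (j : ∀ t, BoundedLatticeHom (A t) M),
        IsProd m (fun T' : Set T => #T' ≤ n) j ∧ Dense' (fun T' : Set T => #T' ≤ n) j) ∧
      ∀ (M : Type) [BooleanAlgebra M] (j : ∀ t, BoundedLatticeHom (A t) M),
        IsProd m (fun T' : Set T => #T' ≤ n) j → Dense' (fun T' : Set T => #T' ≤ n) j →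
        ¬ IsMRep m M := by
  let T := Set n.out
  have hT : n < #T := by
    rw [mk_set, mk_out]; exact cantor n
  have hT2 : #T ≤ #(Set T) := by rw [mk_set (α := T)]; exact (cantor _).le
  refine ⟨#(Set T), hT.le.trans hT2, T, fun _ => Set Prop, inferInstance, fun _ => ⟨inferInstance,
    fun S _ => ⟨⟨_, isLUB_sSup S⟩, _, isGLB_sInf S⟩, Prop, Set.univ, {∅}, id, fun _ _ => trivial,
    fun _ _ _ => trivial, fun _ _ => trivial, ?_, ?_, fun _ _ => rfl, fun _ _ _ _ => rfl,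
    fun b => ⟨b, trivial, rfl⟩, fun _ _ => Iff.rfl⟩,
    ⟨_, _, _, ro_min (P := fun T' : Set T => #T' ≤ n) (by simp)
      (fun x y hx hy => (mk_union_le x y).trans (add_le_of_le hn hx hy)) _
      (hn.trans (hT.le.trans hT2)) hT2 (mk_subtype_le _)
      (fun _ _ h h' => (mk_le_mk_of_subset h').trans h)
      (fun t => by simpa using one_le_aleph0.trans hn)⟩, ?_⟩
  · rintro _ rfl E - h; exact subset_empty_iff.mp h
  · intro S hS _; exact sUnion_eq_empty.mpr hS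
  rintro M _ j hj hd ⟨Ω, F, Δ, π, f1, f2, -, -, d3, p1, p2, p3, p4⟩
  choose E hE hE' using fun t => p3 (j t {True})
  let G : (T → Prop) → T → Set Ω := fun x t => {ω | ω ∈ E t ↔ x t}
  have hG : ∀ x t, G x t ∈ F ∧ π (G x t) = j t {x t} := by
    intro x t
    by_cases h : x t
    · have e : G x t = E t := by ext ω; simp [G, h]
      rw [e, eq_true h]; exact ⟨hE t, hE' t⟩
    · have e : G x t = (E t)ᶜ := by ext ω; simp [G, h]
      have e2 : ({False} : Set Prop) = {True}ᶜ := by ext p; simp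
      rw [e, eq_false h, p1 _ (hE t), hE', e2, map_compl']; exact ⟨f1 _ (hE t), rfl⟩
  let H : (T → Prop) → Set Ω := fun x => (⋃₀ range fun t => (G x t)ᶜ)ᶜ
  have hH : ∀ x, H x ∈ F := fun x =>
    f1 _ (f2 _ (by rintro _ ⟨t, rfl⟩; exact f1 _ (hG x t).1) (mk_range_le.trans hT2))
  have hH2 : ∀ x, H x ∈ Δ := fun x => (p4 _ (hH x)).mp (small _
    (fun x t h => mk_insert_le.trans (add_le_of_le hn h (one_le_aleph0.trans hn))) (by simpa using hT)
    j hj.2.2.1 hd _ x fun t => by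
      have h1 : H x ⊆ G x t := fun ω hω => by
        by_contra h
        exact hω ⟨_, ⟨t, rfl⟩, h⟩
      rw [← (hG x t).2, ← union_eq_self_of_subset_left h1, p2 _ (hH x) _ (hG x t).1]
      exact le_sup_left)
  have h3 := d3 (range H) (by rintro _ ⟨x, rfl⟩; exact hH2 x) mk_range_le
  have h4 : ⋃₀ range H = (∅ : Set Ω)ᶜ := by
    rw [compl_empty]
    refine eq_univ_of_forall fun ω => ⟨_, ⟨fun t => ω ∈ E t, rfl⟩, ?_⟩
    rintro ⟨_, ⟨t, rfl⟩, h⟩
    exact h Iff.rfl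
  have h0 : (∅ : Set Ω) ∈ F := by simpa using f2 ∅ (empty_subset _) (by simp)
  have h5 : π ∅ = ⊥ := (p4 _ h0).mpr (by simpa using d3 ∅ (empty_subset _) (by simp))
  rw [h4, ← p4 _ (f1 _ h0), p1 _ h0, h5, compl_bot] at h3
  obtain ⟨b, -, hb0⟩ := hj.2.2.1 ∅ (by simp) (fun _ => ⊤) (fun _ h => h.elim)
  exact hb0 (le_bot_iff.mp (le_top.trans h3.le))

end Pool.Agent.Results.MP_705fed_lc.NotRep
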